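import Pool.Agent.Lib_helper65.T16.Transport

/-!
# Toric ideals of nondegenerate flow polytopes are generated by quadrics

The definitions are in `Pool/Agent/Lib_helper65/T16/Defs.lean`.
-/

set_option autoImplicit false

namespace Pool.Agent.Results.MP_dc5c2a_ag.FlowPolytopes

open Pool.Agent.Lib_helper65.T16.Defs

/-- **Theorem.** Consider a finite directed graph (parallel arcs, loops and directed cycles are
allowed), an integer `D v` for every vertex `v`, and the polyhedron `P` of all nonnegative real
flows with divergence `D`. If there are two vertices `t ≠ h` such that `∑ v ∈ S, D v ≠ 0` for every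
nonempty set `S` of other vertices, then for every field `k` the toric ideal of `P` is generated by
its homogeneous elements of degree 2. -/
theorem result (V A : Type) [Fintype V] [DecidableEq V] [Fintype A] [DecidableEq A] (s r : A → V)
    (D : V → ℤ) (hD : ∃ t h : V, t ≠ h ∧
      ∀ S : Finset V, S.Nonempty → t ∉ S → h ∉ S → ∑ v ∈ S, D v ≠ 0)
    (k : Type) [Field k] : QuadGen (Flows s r D) k := by
  obtain ⟨t, h, hth, hS⟩ := hD
  exact Pool.Agent.Lib_helper65.T16.flows s r D t h hth hS k

end Pool.Agent.Results.MP_dc5c2a_ag.FlowPolytopes
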