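import Pool.Agent.Lib_helper13.LongEdges

/-!
# Smooth lattice polytopes with long edges have quadratically generated toric ideals

The bound on the edge lengths depends only on the dimension `d`: every edge of lattice length at
least `2 d (d+1) (d+2)` is enough.
-/

namespace Pool.Agent.Results.MP_dc5c2a_ag.LongEdges

/-- Let `P ⊂ ℝ^d` be a lattice polytope (the convex hull of the finite set `V` of lattice points)
which is smooth and all of whose edges have lattice length at least `N`, where
`N ≥ 2 d (d+1) (d+2)`: at every vertex `x` of `P` there is a basis `w` of `ℤ^d` whose nonnegative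
real span is the cone of `P` at `x` (so the `w i` are the primitive vectors along the edges of `P`
at `x`), and `x + N • w i` lies in `P` for every `i` (so the edge in direction `w i` has lattice
length at least `N`).  Then for every field `k` the toric ideal of `P` (the kernel of
`x_u ↦ monomial (u, 1)`, `u` a lattice point of `P`) is generated by its homogeneous elements of
degree `2`. -/
theorem result (d : ℕ) (V : Finset (Fin d → ℤ)) (P : Set (Fin d → ℝ))
    (hP : P = convexHull ℝ ((fun v : Fin d → ℤ => fun i => (v i : ℝ)) '' (V : Set (Fin d → ℤ))))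
    (N : ℕ) (hN : 2 * d * (d + 1) * (d + 2) ≤ N)
    (hsm : ∀ x ∈ Set.extremePoints ℝ P,
      ∃ w : Fin d → Fin d → ℤ, IsUnit (Matrix.det (Matrix.of w)) ∧
        (∀ y : Fin d → ℝ,
          ((∃ t : ℝ, 0 ≤ t ∧ ∃ p ∈ P, y = t • (p - x)) ↔
            (∃ c : Fin d → ℝ, (∀ i, 0 ≤ c i) ∧
              y = ∑ i, c i • (fun j => (w i j : ℝ))))) ∧
        ∀ i, x + (N : ℝ) • (fun j => (w i j : ℝ)) ∈ P)
    (k : Type) [Field k]
    (φ : MvPolynomial {u : Fin d → ℤ // (fun i => (u i : ℝ)) ∈ P} k →ₐ[k]
            AddMonoidAlgebra k ((Fin d → ℤ) × ℤ))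
    (hφ : ∀ u, φ (MvPolynomial.X u) = AddMonoidAlgebra.single (u.1, (1 : ℤ)) (1 : k)) :
    RingHom.ker φ = Ideal.span {f | f ∈ RingHom.ker φ ∧ f.IsHomogeneous 2} :=
  Pool.LongEdges.main d V P hP N hN hsm k φ hφ

end Pool.Agent.Results.MP_dc5c2a_ag.LongEdges
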