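import Pool.Agent.Lib_helper99.GP.Final

/-!
# Quadratic generation for smooth generalized permutohedra

Toric ideals of smooth lattice polytopes all of whose edges are parallel to roots of type `A`
(`± e_i`, `e_i - e_j`) are generated by quadrics, and so are those of the Cayley polytopes of
several such polytopes with the same normal fan. The definitions are in
`Pool/Agent/Lib_helper99/GP/Defs.lean`.
-/

set_option autoImplicit false

namespace Pool.Agent.Results.MP_dc5c2a_ag.SmoothGenPerm

open Pool.Agent.Lib_helper99.GP Pool.Agent.Lib_helper99.GP.Defs

/-- **Theorem.** Let `P 0, …, P (m-1)` be smooth lattice polytopes in `ℝ^d` with the same normal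
fan, all of whose edges are parallel to roots `± e_i`, `e_i - e_j` of type `A_d`. Then for every
field `k` the toric ideal of the lattice points of their Cayley polytope is generated by its
homogeneous quadratic elements. For `m = 1` the Cayley polytope is `{1} × P 0` and this is the
statement for `P 0` itself (see `Final.single`). -/
theorem result (m d : ℕ) (P : Fin m → Set (Fin d → ℝ)) (hP : ∀ t, IsLatticePolytope (P t))
    (hs : ∀ s t, RootSmooth (P s) (P t)) (k : Type) [Field k] :
    QuadGen k (fun u : (Fin m → ℤ) × (Fin d → ℤ) => (toReal u.1, toReal u.2) ∈ Cayley P) := by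
  choose V h1 h2 using hP
  exact fun φ hφ => Final.cayley m d V P h1 h2 hs k φ hφ

end Pool.Agent.Results.MP_dc5c2a_ag.SmoothGenPerm
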