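import Pool.Agent.Lib_helper65.T16.Transport

/-!
# Toric ideals of smooth transportation polytopes are generated by quadrics

The definitions are in `Pool/Agent/Lib_helper65/T16/Defs.lean`.
-/

set_option autoImplicit false

namespace Pool.Agent.Results.MP_dc5c2a_ag.TransportationPolytopes

open Pool.Agent.Lib_helper65.T16.Defs

/-- **Theorem.** Let `a ∈ ℕ^m`, `b ∈ ℕ^n` and let `P` be the transportation polytope of all
nonnegative real `m × n` matrices with row sums `a` and column sums `b`. If `P` is smooth, then for
every field `k` the toric ideal of `P` is generated by its homogeneous elements of degree 2. -/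
theorem result (m n : ℕ) (a : Fin m → ℕ) (b : Fin n → ℕ) (h : Smooth (Transportation a b))
    (k : Type) [Field k] : QuadGen (Transportation a b) k :=
  Pool.Agent.Lib_helper65.T16.transportation a b h k

end Pool.Agent.Results.MP_dc5c2a_ag.TransportationPolytopes
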